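import Mathlib

set_option autoImplicit false

namespace Pool.Agent.Results.MP_c5e1a2_co.Counter

open Finset

/-- Words of length `N + 1` over `S` states with no self-loops. -/
abbrev Word (S N : ℕ) : Type :=
  {w : Fin (N + 1) → Fin S // ∀ t : Fin N, w t.castSucc ≠ w t.succ}

/-- Entry of the design matrix: the number of transitions from `i` to `j` in the word `w`. -/
def cnt {S N : ℕ} (w : Word S N) (i j : Fin S) : ℤ :=
  (univ.filter fun t : Fin N => w.1 t.castSucc = i ∧ w.1 t.succ = j).card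

/-- Row `(i, j)` of the design matrix applied to a vector. -/
def app {S N : ℕ} (x : Word S N → ℤ) (i j : Fin S) : ℤ := ∑ w, cnt w i j * x w

/-- A finite set of moves connecting every fiber through nonnegative points
(each move may be used with either sign). -/
def IsMarkovBasis {S N : ℕ} (Z : Finset (Word S N → ℤ)) : Prop :=
  (∀ z ∈ Z, ∀ i j, i ≠ j → app z i j = 0) ∧
  ∀ x y : Word S N → ℤ, 0 ≤ x → 0 ≤ y → (∀ i j, i ≠ j → app x i j = app y i j) →
    Relation.ReflTransGen (fun u v => 0 ≤ v ∧ (v - u ∈ Z ∨ u - v ∈ Z)) x y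

/-- Degree of the binomial of a move: the sum of its positive part. -/
def deg {S N : ℕ} (z : Word S N → ℤ) : ℕ := ∑ w, (z w).toNat

variable {N : ℕ}

theorem cnt_nn (w : Word 4 N) (i j : Fin 4) : 0 ≤ cnt w i j := by simp [cnt]

theorem sum_cnt (w : Word 4 N) (g : Fin 4 → Fin 4 → ℤ) :
    ∑ i, ∑ j, cnt w i j * g i j = ∑ t : Fin N, g (w.1 t.castSucc) (w.1 t.succ) := by
  simp only [cnt, card_filter, Nat.cast_sum, sum_mul]
  rw [sum_congr rfl fun i _ => sum_comm, sum_comm]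
  refine sum_congr rfl fun t _ => ?_
  simp [ite_and, eq_comm]

theorem tele (w : Word 4 N) (f : Fin 4 → ℤ) :
    ∑ i, ∑ j, cnt w i j * (f j - f i) = f (w.1 (Fin.last N)) - f (w.1 0) := by
  rw [sum_cnt w fun i j => f j - f i, sum_sub_distrib]
  have e1 := Fin.sum_univ_succ fun t => f (w.1 t)
  have e2 := Fin.sum_univ_castSucc fun t => f (w.1 t)
  linarith

def ok (i j : Fin 4) : Prop :=
  (i = 0 ∧ j = 1) ∨ (i = 0 ∧ j = 3) ∨ (i = 3 ∧ j = 0) ∨ (i = 1 ∧ j = 2) ∨ (i = 2 ∧ j = 1)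

instance (i j : Fin 4) : Decidable (ok i j) := by unfold ok; infer_instance

def Al (w : Word 4 N) : Prop := ∀ t : Fin N, ok (w.1 t.castSucc) (w.1 t.succ)

theorem cnt_zero {w : Word 4 N} {i j : Fin 4} :
    cnt w i j = 0 ↔ ∀ t : Fin N, ¬ (w.1 t.castSucc = i ∧ w.1 t.succ = j) := by
  simp [cnt, filter_eq_empty_iff]

theorem Al.zero {w : Word 4 N} (h : Al w) {i j : Fin 4} (hij : ¬ ok i j) : cnt w i j = 0 :=
  cnt_zero.2 fun t ⟨a, b⟩ => hij (a ▸ b ▸ h t)

def ty (w : Word 4 N) (s e : Fin 4) : ℤ := if w.1 0 = s ∧ w.1 (Fin.last N) = e then 1 else 0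

theorem Al.facts {w : Word 4 N} (h : Al w) {m : ℕ} (hN : N = 2 * m + 1) :
    cnt w 1 2 - cnt w 2 1 = ty w 1 2 - ty w 2 1 + ty w 3 2 ∧
    cnt w 3 0 - cnt w 0 3 = ty w 3 0 - ty w 0 3 + ty w 3 2 ∧
    cnt w 0 1 = ty w 0 1 + ty w 3 2 ∧
    ty w 1 2 + ty w 2 1 + ty w 3 0 + ty w 0 3 + ty w 0 1 + ty w 3 2 = 1 ∧
    cnt w 0 1 + cnt w 0 3 + cnt w 3 0 + cnt w 1 2 + cnt w 2 1 = 2 * m + 1 ∧
    (ty w 1 2 + ty w 2 1 = 1 → cnt w 0 3 = 0) ∧ (ty w 3 0 + ty w 0 3 = 1 → cnt w 2 1 = 0) := by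
  have key : ∀ g : Fin 4 → Fin 4 → ℤ, ∑ i, ∑ j, cnt w i j * g i j = cnt w 0 1 * g 0 1 +
      cnt w 0 3 * g 0 3 + cnt w 3 0 * g 3 0 + cnt w 1 2 * g 1 2 + cnt w 2 1 * g 2 1 := by
    intro g
    simp only [Fin.sum_univ_four]
    rw [h.zero (i := 0) (j := 0) (by decide), h.zero (i := 0) (j := 2) (by decide),
      h.zero (i := 1) (j := 0) (by decide), h.zero (i := 1) (j := 1) (by decide),
      h.zero (i := 1) (j := 3) (by decide), h.zero (i := 2) (j := 0) (by decide),
      h.zero (i := 2) (j := 2) (by decide), h.zero (i := 2) (j := 3) (by decide),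
      h.zero (i := 3) (j := 1) (by decide), h.zero (i := 3) (j := 2) (by decide),
      h.zero (i := 3) (j := 3) (by decide)]
    ring
  have e0 := sum_cnt w fun _ _ => 1
  have e1 := tele w ![0, 0, 1, 0]
  have e2 := tele w ![0, 0, 0, 1]
  have e3 := tele w ![0, 1, 1, 0]
  rw [key] at e0 e1 e2 e3
  have mono : Monotone fun t => (![0, 1, 1, 0] : Fin 4 → ℤ) (w.1 t) := by
    refine Fin.monotone_iff_le_succ.2 fun t => ?_
    have := h t
    revert this
    generalize w.1 t.castSucc = a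
    generalize w.1 t.succ = b
    revert a b
    decide
  have z1 : w.1 0 = 1 ∨ w.1 0 = 2 → cnt w 0 3 = 0 := fun h1 => cnt_zero.2 fun t ⟨a, _⟩ => by
    have := mono (Fin.zero_le t.castSucc)
    rcases h1 with h1 | h1 <;> simp [h1, a] at this
  have z2 : w.1 (Fin.last N) = 0 ∨ w.1 (Fin.last N) = 3 → cnt w 2 1 = 0 :=
    fun h1 => cnt_zero.2 fun t ⟨a, _⟩ => by
      have := mono (Fin.le_last t.castSucc)
      rcases h1 with h1 | h1 <;> simp [h1, a] at this
  have := cnt_nn w 0 1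
  unfold ty
  revert e1 e2 e3 z1 z2
  generalize w.1 0 = a
  generalize w.1 (Fin.last N) = b
  intro e1 e2 e3 z1 z2
  fin_cases a <;> fin_cases b <;> simp at e0 e1 e2 e3 z1 z2 ⊢ <;> omega

def Fib (m : ℕ) (x : Word 4 N → ℤ) : Prop :=
  0 ≤ x ∧ (∀ i j, i ≠ j → ¬ ok i j → app x i j = 0) ∧ app x 0 1 = 2 ∧ app x 0 3 = 2 * m ∧
    app x 3 0 = 2 * m + 1 ∧ app x 1 2 = 2 * m + 1 ∧ app x 2 1 = 2 * m

def ph (w : Word 4 N) : ℤ := ty w 2 1 + ty w 0 3 + ty w 3 2

theorem ty_nn (w : Word 4 N) (s e : Fin 4) : 0 ≤ ty w s e := by unfold ty; split_ifs <;> omega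

theorem Fib.al {m : ℕ} {x : Word 4 N → ℤ} (h : Fib m x) {w : Word 4 N} (hw : x w ≠ 0) : Al w := by
  intro t
  by_contra h1
  have := (sum_eq_zero_iff_of_nonneg fun w _ => mul_nonneg (cnt_nn w _ _) (h.1 w)).1
    (h.2.1 _ _ (w.2 t) h1) w (mem_univ _)
  exact cnt_zero.1 ((mul_eq_zero.1 this).resolve_right hw) t ⟨rfl, rfl⟩

theorem Fib.split {m : ℕ} (hN : N = 2 * m + 1) {x : Word 4 N → ℤ} (h : Fib m x) :
    ∑ w, x w = 4 ∧ ((∀ w, x w ≠ 0 → ph w = 0) ∨ ∀ w, x w ≠ 0 → ph w = 1) := by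
  have sm : ∀ f g : Word 4 N → ℤ, (∀ w, Al w → f w ≤ g w) → ∑ w, f w * x w ≤ ∑ w, g w * x w := by
    intro f g hfg
    refine sum_le_sum fun w _ => ?_
    by_cases hw : x w = 0
    · simp [hw]
    · exact mul_le_mul_of_nonneg_right (hfg w (h.al hw)) (h.1 w)
  have se : ∀ f g : Word 4 N → ℤ, (∀ w, Al w → f w = g w) → ∑ w, f w * x w = ∑ w, g w * x w :=
    fun f g hfg => le_antisymm (sm f g fun w hw => (hfg w hw).le) (sm g f fun w hw => (hfg w hw).ge)
  have e1 := se _ _ fun w hw => (hw.facts hN).1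
  have e2 := se _ _ fun w hw => (hw.facts hN).2.1
  have e3 := se _ _ fun w hw => (hw.facts hN).2.2.1
  have e4 := se _ _ fun w hw => (hw.facts hN).2.2.2.1
  have e5 := se _ _ fun w hw => (hw.facts hN).2.2.2.2.1
  have e6 := sm (fun w => m * ty w 1 2 + (m + 1) * ty w 2 1) (fun w => cnt w 2 1) fun w hw => by
    obtain ⟨a1, a2, a3, a4, a5, a6, a7⟩ := hw.facts hN
    have := cnt_nn w 2 1
    have := ty_nn w 1 2; have := ty_nn w 2 1; have := ty_nn w 3 0
    have := ty_nn w 0 3; have := ty_nn w 0 1; have := ty_nn w 3 2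
    have : (ty w 1 2 = 0 ∧ ty w 2 1 = 0) ∨ (ty w 1 2 = 1 ∧ ty w 2 1 = 0) ∨
      (ty w 1 2 = 0 ∧ ty w 2 1 = 1) := by omega
    rcases this with ⟨b1, b2⟩ | ⟨b1, b2⟩ | ⟨b1, b2⟩ <;> simp only [b1, b2] at * <;> omega
  have e7 := sm (fun w => m * ty w 3 0 + (m + 1) * ty w 0 3) (fun w => cnt w 0 3) fun w hw => by
    obtain ⟨a1, a2, a3, a4, a5, a6, a7⟩ := hw.facts hN
    have := cnt_nn w 0 3
    have := ty_nn w 1 2; have := ty_nn w 2 1; have := ty_nn w 3 0
    have := ty_nn w 0 3; have := ty_nn w 0 1; have := ty_nn w 3 2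
    have : (ty w 3 0 = 0 ∧ ty w 0 3 = 0) ∨ (ty w 3 0 = 1 ∧ ty w 0 3 = 0) ∨
      (ty w 3 0 = 0 ∧ ty w 0 3 = 1) := by omega
    rcases this with ⟨b1, b2⟩ | ⟨b1, b2⟩ | ⟨b1, b2⟩ <;> simp only [b1, b2] at * <;> omega
  have nn : ∀ s e, 0 ≤ ∑ w, ty w s e * x w :=
    fun s e => sum_nonneg fun w _ => mul_nonneg (ty_nn w s e) (h.1 w)
  obtain ⟨h0, -, c1, c2, c3, c4, c5⟩ := id h
  simp only [app] at c1 c2 c3 c4 c5
  simp only [add_mul, sub_mul, sum_add_distrib, sum_sub_distrib, one_mul, mul_assoc, ← mul_sum,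
    c1, c2, c3, c4, c5] at e1 e2 e3 e4 e5 e6 e7
  have s4 : ∑ w, x w = 4 := by
    have : (2 * m + 1 : ℤ) * (∑ w, x w - 4) = 0 := by linarith
    rcases mul_eq_zero.1 this with h | h <;> omega
  refine ⟨s4, ?_⟩
  have p0 : ∀ w : Word 4 N, 0 ≤ ph w := fun w =>
    add_nonneg (add_nonneg (ty_nn _ _ _) (ty_nn _ _ _)) (ty_nn _ _ _)
  have p1 : ∀ w, x w ≠ 0 → 0 ≤ 1 - ph w := fun w hw => by
    have := ((h.al hw).facts hN).2.2.2.1
    have := ty_nn w 1 2; have := ty_nn w 3 0; have := ty_nn w 0 1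
    unfold ph; omega
  have q : ∑ w, ph w * x w = 0 ∨ ∑ w, (1 - ph w) * x w = 0 := by
    simp only [ph, add_mul, sub_mul, sum_add_distrib, sum_sub_distrib, one_mul]
    have := nn 1 2; have := nn 2 1; have := nn 3 0
    have := nn 0 3; have := nn 0 1; have := nn 3 2
    by_contra hc
    have : (∑ w, ty w 1 2 * x w = 1 ∧ ∑ w, ty w 2 1 * x w = 1) ∨
      (∑ w, ty w 3 0 * x w = 1 ∧ ∑ w, ty w 0 3 * x w = 1) := by omega
    rcases this with ⟨b1, b2⟩ | ⟨b1, b2⟩
    · rw [b1, b2] at e6; omega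
    · rw [b1, b2] at e7; omega
  refine q.imp (fun q w hw => ?_) fun q w hw => ?_
  · exact (mul_eq_zero.1 ((sum_eq_zero_iff_of_nonneg fun w _ => mul_nonneg (p0 w) (h0 w)).1 q w
      (mem_univ _))).resolve_right hw
  · have := (mul_eq_zero.1 ((sum_eq_zero_iff_of_nonneg fun w _ => by
      by_cases hw : x w = 0
      · simp [hw]
      · exact mul_nonneg (p1 w hw) (h0 w)).1 q w (mem_univ _))).resolve_right hw
    omega

def mk (f : ℕ → Fin 4) (h : ∀ t < N, ok (f t) (f (t + 1))) : Word 4 N :=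
  ⟨fun t => f t, fun t e => by
    have := h t t.2
    simp only [Fin.val_castSucc, Fin.val_succ] at e
    rw [e] at this
    revert this
    generalize f (t + 1) = a
    revert a
    decide⟩

theorem mk_al (f : ℕ → Fin 4) (h : ∀ t < N, ok (f t) (f (t + 1))) : Al (mk f h) :=
  fun t => h t t.2

theorem mk_z (f : ℕ → Fin 4) (h : ∀ t < N, ok (f t) (f (t + 1))) {i j : Fin 4}
    (hz : ∀ t < N, ¬ (f t = i ∧ f (t + 1) = j)) : cnt (mk f h) i j = 0 :=
  cnt_zero.2 fun t => hz t t.2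

theorem mk_ty (f : ℕ → Fin 4) (h : ∀ t < N, ok (f t) (f (t + 1))) (s e : Fin 4) :
    ty (mk f h) s e = if f 0 = s ∧ f N = e then 1 else 0 := rfl

theorem ex (f : ℕ → Fin 4) (h : ∀ t < N, ok (f t) (f (t + 1)))
    (s e i j : Fin 4) (hs : f 0 = s) (he : f N = e) (hz : ∀ t < N, ¬ (f t = i ∧ f (t + 1) = j)) :
    ∃ w : Word 4 N, Al w ∧ cnt w i j = 0 ∧ ∀ a b, ty w a b = if s = a ∧ e = b then 1 else 0 :=
  ⟨mk f h, mk_al f h, mk_z f h hz, fun a b => by rw [mk_ty, hs, he]⟩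

theorem app_four (a b c d : Word 4 N) (i j : Fin 4) :
    app (Pi.single a 1 + Pi.single b 1 + Pi.single c 1 + Pi.single d 1) i j =
      cnt a i j + cnt b i j + cnt c i j + cnt d i j := by
  simp [app, mul_add, sum_add_distrib, Pi.single_apply]

theorem result (N : ℕ) (h3 : 3 ≤ N) (hodd : Odd N) (Z : Finset (Word 4 N → ℤ))
    (hZ : IsMarkovBasis Z) : ∃ z ∈ Z, 4 ≤ deg z := by
  obtain ⟨m, hN⟩ := hodd
  obtain ⟨B, aB, zB, tB⟩ := ex (N := N) (fun t => if t % 2 = 0 then 1 else 2)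
    (fun t _ => by split_ifs <;> first | decide | omega | contradiction) 1 2 0 3 rfl (if_neg (by omega))
    (fun t _ => by split_ifs <;> decide)
  obtain ⟨C, aC, zC, tC⟩ := ex (N := N) (fun t => if t % 2 = 0 then 2 else 1)
    (fun t _ => by split_ifs <;> first | decide | omega | contradiction) 2 1 0 3 rfl (if_neg (by omega))
    (fun t _ => by split_ifs <;> decide)
  obtain ⟨G, aG, zG, tG⟩ := ex (N := N) (fun t => if t % 2 = 0 then 3 else 0)
    (fun t _ => by split_ifs <;> first | decide | omega | contradiction) 3 0 2 1 rfl (if_neg (by omega))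
    (fun t _ => by split_ifs <;> decide)
  obtain ⟨E, aE, zE, tE⟩ := ex (N := N) (fun t => if t % 2 = 0 then 0 else 3)
    (fun t _ => by split_ifs <;> first | decide | omega | contradiction) 0 3 2 1 rfl (if_neg (by omega))
    (fun t _ => by split_ifs <;> decide)
  obtain ⟨P, aP, zP, tP⟩ := ex (N := N) (fun t => if t = 0 then 0 else if t % 2 = 0 then 2 else 1)
    (fun t _ => by split_ifs <;> first | decide | omega | contradiction) 0 1 0 3 rfl
    ((if_neg (by omega)).trans (if_neg (by omega))) (fun t _ => by split_ifs <;> decide)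
  obtain ⟨P', aP', zP', tP'⟩ := ex (N := N) (fun t => if t = N then 1 else if t % 2 = 0 then 0 else 3)
    (fun t _ => by split_ifs <;> first | decide | omega | contradiction) 0 1 2 1 (if_neg (by omega)) (if_pos rfl)
    (fun t _ => by split_ifs <;> decide)
  obtain ⟨Q, aQ, zQ, tQ⟩ := ex (N := N)
    (fun t => if t = 0 then 3 else if t = 1 then 0 else if t % 2 = 0 then 1 else 2)
    (fun t _ => by split_ifs <;> first | decide | omega | contradiction) 3 2 0 3 rfl
    ((if_neg (by omega)).trans ((if_neg (by omega)).trans (if_neg (by omega))))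
    (fun t _ => by split_ifs <;> first | decide | omega | contradiction)
  obtain ⟨Q', aQ', zQ', tQ'⟩ := ex (N := N)
    (fun t => if t = N then 2 else if t + 1 = N then 1 else if t % 2 = 0 then 3 else 0)
    (fun t _ => by split_ifs <;> first | decide | omega | contradiction) 3 2 2 1
    ((if_neg (by omega)).trans (if_neg (by omega))) (if_pos rfl)
    (fun t _ => by split_ifs <;> first | decide | omega | contradiction)
  have fB := aB.facts hN; have fC := aC.facts hN; have fG := aG.facts hN; have fE := aE.facts hN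
  have fP := aP.facts hN; have fP' := aP'.facts hN; have fQ := aQ.facts hN; have fQ' := aQ'.facts hN
  simp [tB, tC, tG, tE, tP, tP', tQ, tQ'] at fB fC fG fE fP fP' fQ fQ'
  have nn : ∀ a b c d : Word 4 N,
      (0 : Word 4 N → ℤ) ≤ Pi.single a 1 + Pi.single b 1 + Pi.single c 1 + Pi.single d 1 := by
    intro a b c d w
    simp only [Pi.add_apply, Pi.single_apply, Pi.zero_apply]
    split_ifs <;> omega
  have hx : Fib m (Pi.single B 1 + Pi.single G 1 + Pi.single P 1 + Pi.single P' 1) := by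
    refine ⟨nn _ _ _ _, fun i j _ h => ?_, ?_⟩
    · rw [app_four, aB.zero h, aG.zero h, aP.zero h, aP'.zero h]; rfl
    · simp only [app_four]; omega
  have hy : Fib m (Pi.single C 1 + Pi.single E 1 + Pi.single Q 1 + Pi.single Q' 1) := by
    refine ⟨nn _ _ _ _, fun i j _ h => ?_, ?_⟩
    · rw [app_four, aC.zero h, aE.zero h, aQ.zero h, aQ'.zero h]; rfl
    · simp only [app_four]; omega
  have feq : ∀ x y : Word 4 N → ℤ, Fib m x → Fib m y → ∀ i j, i ≠ j → app x i j = app y i j := by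
    rintro x y ⟨-, a, a1, a2, a3, a4, a5⟩ ⟨-, b, b1, b2, b3, b4, b5⟩ i j hij
    by_cases h : ok i j
    · rcases h with ⟨rfl, rfl⟩ | ⟨rfl, rfl⟩ | ⟨rfl, rfl⟩ | ⟨rfl, rfl⟩ | ⟨rfl, rfl⟩ <;> omega
    · rw [a i j hij h, b i j hij h]
  by_contra hn
  push Not at hn
  have dg : ∀ u v : Word 4 N → ℤ, Fib m u → Fib m v → (∀ w, u w = 0 ∨ v w = 0) → v - u ∉ Z := by
    intro u v hu hv h hz
    have e : ((deg (v - u) : ℕ) : ℤ) = ∑ w, v w := by
      simp only [deg, Nat.cast_sum]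
      refine sum_congr rfl fun w _ => ?_
      have := hu.1 w
      have := hv.1 w
      have := h w
      simp only [Pi.sub_apply, Pi.zero_apply] at *
      omega
    have := hn _ hz
    rw [(hv.split hN).1] at e
    omega
  have inv : ∀ y, Relation.ReflTransGen (fun u v => 0 ≤ v ∧ (v - u ∈ Z ∨ u - v ∈ Z))
      (Pi.single B 1 + Pi.single G 1 + Pi.single P 1 + Pi.single P' 1) y →
      Fib m y ∧ ∀ w, y w ≠ 0 → ph w = 0 := by
    intro y hy
    induction hy with
    | refl =>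
      refine ⟨hx, (hx.split hN).2.resolve_right fun h => ?_⟩
      have := h B (by
        simp only [Pi.add_apply, Pi.single_apply, if_true]
        split_ifs <;> omega)
      simp [ph, tB] at this
    | @tail u v _ h ih =>
      have e : ∀ i j, i ≠ j → app v i j = app u i j := by
        intro i j hij
        rcases h.2 with h | h <;>
        · have := hZ.1 _ h i j hij
          simp only [app, Pi.sub_apply, mul_sub, sum_sub_distrib] at this ⊢
          omega
      have hv : Fib m v := by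
        obtain ⟨-, a, b⟩ := ih.1
        refine ⟨h.1, fun i j h1 h2 => (e i j h1).trans (a i j h1 h2), ?_⟩
        rwa [e 0 1 (by decide), e 0 3 (by decide), e 3 0 (by decide), e 1 2 (by decide),
          e 2 1 (by decide)]
      refine ⟨hv, (hv.split hN).2.resolve_right fun h1 => ?_⟩
      have dj : ∀ w, u w = 0 ∨ v w = 0 := fun w => by
        by_contra h2
        push Not at h2
        have := ih.2 w h2.1
        have := h1 w h2.2
        omega
      exact h.2.elim (dg u v ih.1 hv dj) (dg v u hv ih.1 fun w => (dj w).symm)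
  have := (inv _ (hZ.2 _ _ hx.1 hy.1 (feq _ _ hx hy))).2 C (by
    simp only [Pi.add_apply, Pi.single_apply, if_true]
    split_ifs <;> omega)
  simp [ph, tC] at this

end Pool.Agent.Results.MP_c5e1a2_co.Counter
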