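import Mathlib

set_option autoImplicit false

namespace Pool.Agent.Results.MP_c5e1a2_co.Groebner

open Finset MvPolynomial

/-- Words of length `N + 1` over `S` states with no self-loops. -/
abbrev Word (S N : ℕ) : Type :=
  {w : Fin (N + 1) → Fin S // ∀ t : Fin N, w t.castSucc ≠ w t.succ}

/-- Entry of the design matrix: the number of transitions from `i` to `j` in the word `w`. -/
def cnt {S N : ℕ} (w : Word S N) (i j : Fin S) : ℕ :=
  (univ.filter fun t : Fin N => w.1 t.castSucc = i ∧ w.1 t.succ = j).card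

/-- The toric ideal: the kernel of `p_w ↦ ∏ θ_{ij} ^ cnt w i j`. -/
noncomputable def toric (K : Type) [Field K] (S N : ℕ) : Ideal (MvPolynomial (Word S N) K) :=
  RingHom.ker (aeval (R := K) fun w : Word S N =>
    ∏ p : Fin S × Fin S, (X p : MvPolynomial (Fin S × Fin S) K) ^ cnt w p.1 p.2)

/-- `G` is a Groebner basis of `I` for the term order `m`. -/
def IsGroebner {σ K : Type} [Field K] (m : MonomialOrder σ) (I : Ideal (MvPolynomial σ K))
    (G : Set (MvPolynomial σ K)) : Prop :=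
  (∀ g ∈ G, g ∈ I) ∧ ∀ f ∈ I, f ≠ 0 → ∃ g ∈ G, g ≠ 0 ∧ m.degree g ≤ m.degree f


variable {S N : ℕ}

noncomputable def col (w : Word S N) : (Fin S × Fin S) →₀ ℕ :=
  Finsupp.equivFunOnFinite.symm fun p => cnt w p.1 p.2

noncomputable def A (u : Word S N →₀ ℕ) : (Fin S × Fin S) →₀ ℕ := ∑ w, u w • col w

theorem A_apply (u : Word S N →₀ ℕ) (i j : Fin S) : A u (i, j) = ∑ w, u w * cnt w i j := by
  simp [A, col, Finsupp.finsetSum_apply]

theorem A_add (u v : Word S N →₀ ℕ) : A (u + v) = A u + A v := by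
  simp [A, add_smul, sum_add_distrib]

theorem A_add' (u v : Word S N →₀ ℕ) (i j : Fin S) :
    A (u + v) (i, j) = A u (i, j) + A v (i, j) := by rw [A_add, Finsupp.add_apply]

theorem A_single (w : Word S N) (k : ℕ) (i j : Fin S) : A (Finsupp.single w k) (i, j) = k * cnt w i j := by
  classical
  rw [A_apply, sum_eq_single w (fun v _ hv => by rw [Finsupp.single_eq_of_ne hv, zero_mul])
    (fun h => absurd (mem_univ _) h), Finsupp.single_eq_same]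

theorem A3 (w1 w2 w3 : Word S N) (i j : Fin S) : A (Finsupp.single w1 1 +
    (Finsupp.single w2 2 + Finsupp.single w3 3)) (i, j) =
    1 * cnt w1 i j + (2 * cnt w2 i j + 3 * cnt w3 i j) := by
  rw [A_add', A_add', A_single, A_single, A_single]

theorem A5 (w4 w5 w6 w7 w8 : Word S N) (i j : Fin S) : A (Finsupp.single w4 1 +
    (Finsupp.single w5 1 + (Finsupp.single w6 1 + (Finsupp.single w7 1 +
    Finsupp.single w8 2)))) (i, j) = 1 * cnt w4 i j + (1 * cnt w5 i j + (1 * cnt w6 i j +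
    (1 * cnt w7 i j + 2 * cnt w8 i j))) := by
  rw [A_add', A_add', A_add', A_add', A_single, A_single, A_single, A_single, A_single]

def FibG (b : Fin S → Fin S → ℕ) (u : Word S N →₀ ℕ) : Prop := ∀ i j, A u (i, j) = b i j

def D3 (b : Fin S → Fin S → ℕ) (w1 w2 w3 : Word S N) : Prop :=
  ∀ i j, 1 * cnt w1 i j + (2 * cnt w2 i j + 3 * cnt w3 i j) = b i j

def D5 (b : Fin S → Fin S → ℕ) (w4 w5 w6 w7 w8 : Word S N) : Prop :=
  ∀ i j, 1 * cnt w4 i j + (1 * cnt w5 i j + (1 * cnt w6 i j + (1 * cnt w7 i j +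
    2 * cnt w8 i j))) = b i j

theorem fib3 {b : Fin S → Fin S → ℕ} {w1 w2 w3 : Word S N} (d : D3 b w1 w2 w3) :
    ∃ r, FibG b (Finsupp.single w1 1 + r) :=
  ⟨_, fun i j => (A3 w1 w2 w3 i j).trans (d i j)⟩

theorem fib5 {b : Fin S → Fin S → ℕ} {w4 w5 w6 w7 w8 : Word S N} (d : D5 b w4 w5 w6 w7 w8) :
    ∃ r, FibG b (Finsupp.single w4 1 + r) :=
  ⟨_, fun i j => (A5 w4 w5 w6 w7 w8 i j).trans (d i j)⟩

theorem hFg (u : Word S N →₀ ℕ) (b : Fin S → Fin S → ℕ) :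
    A u = Finsupp.equivFunOnFinite.symm (fun p => b p.1 p.2) ↔ ∀ i j, A u (i, j) = b i j :=
  ⟨fun h i j => by rw [h]; rfl, fun h => Finsupp.ext fun p => h p.1 p.2⟩

theorem sne (w : Word S N) (r : Word S N →₀ ℕ) : (Finsupp.single w 1 + r : Word S N →₀ ℕ) w ≠ 0 := by
  rw [Finsupp.add_apply, Finsupp.single_eq_same]; omega

variable {K : Type} [Field K]

theorem phi (u : Word S N →₀ ℕ) (c : K) : aeval (R := K) (fun w : Word S N =>
    ∏ p : Fin S × Fin S, (X p : MvPolynomial (Fin S × Fin S) K) ^ cnt w p.1 p.2)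
      (monomial u c) = monomial (A u) c := by
  have h : ∀ w : Word S N, ∏ p : Fin S × Fin S, (X p : MvPolynomial (Fin S × Fin S) K) ^ cnt w p.1 p.2
      = monomial (col w) 1 := fun w => by
    rw [monomial_eq, C_1, one_mul, Finsupp.prod_fintype _ _ (by simp)]
    simp only [col, Finsupp.equivFunOnFinite_symm_apply_apply]
  rw [aeval_monomial, Finsupp.prod_fintype _ _ (by simp)]
  simp only [h, monomial_pow, one_pow]
  rw [← monomial_sum_one, algebraMap_eq, C_mul_monomial, mul_one, A]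

theorem partner (m : MonomialOrder (Word S N)) {g : MvPolynomial (Word S N) K} (hg : g ∈ toric K S N)
    (h0 : g ≠ 0) : ∃ v, A v = A (m.degree g) ∧ m.toSyn v < m.toSyn (m.degree g) := by
  classical
  by_contra hc
  push Not at hc
  have hs := (m.degree_mem_support_iff g).2 h0
  rw [toric, RingHom.mem_ker] at hg
  have hg2 := hg
  conv_lhs at hg2 => rw [g.as_sum, map_sum]
  have e := congrArg (coeff (A (m.degree g))) hg2
  simp only [phi, coeff_sum, coeff_monomial, coeff_zero] at e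
  rw [sum_eq_single (m.degree g)] at e
  · simp only [if_true] at e
    exact mem_support_iff.1 hs e
  · intro v hv hne
    rw [if_neg]
    intro hA
    exact hne (m.toSyn.injective (le_antisymm (m.le_degree hv) (hc v hA)))
  · intro h; exact absurd hs h

theorem exmin (m : MonomialOrder (Word S N)) (P : (Word S N →₀ ℕ) → Prop) (h : ∃ u, P u) :
    ∃ u, P u ∧ ∀ v, P v → ¬ m.toSyn v < m.toSyn u := by
  obtain ⟨u, hu⟩ := h
  obtain ⟨_, ⟨x, hx, rfl⟩, hm⟩ := (wellFounded_lt (α := m.syn)).has_min (m.toSyn '' {u | P u})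
    ⟨_, u, hu, rfl⟩
  exact ⟨x, hx, fun v hv => hm _ ⟨v, hv, rfl⟩⟩

theorem gen (m : MonomialOrder (Word S N)) (G : Set (MvPolynomial (Word S N) K))
    (hG : IsGroebner m (toric K S N) G) (F : (Fin S × Fin S) →₀ ℕ) (ph : Word S N → ℕ)
    (hsp : ∀ u, A u = F → ∑ w, u w = 6 ∧ ∃ c, ∀ w, u w ≠ 0 → ph w = c)
    (n0 : ∃ u, A u = F ∧ ∀ w, u w ≠ 0 → ph w = 0)
    (n1 : ∃ u, A u = F ∧ ∀ w, u w ≠ 0 → ph w = 1) : ∃ g ∈ G, 6 ≤ g.totalDegree := by
  classical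
  obtain ⟨x, ⟨hx, hx0⟩, hxm⟩ := exmin m _ n0
  obtain ⟨y, ⟨hy, hy1⟩, hym⟩ := exmin m _ n1
  have hex : ∀ z d : Word S N →₀ ℕ, A z = F → ∑ w, d w ≤ 5 → ∃ w, d w < z w := fun z d hz hd => by
    by_contra hc
    push Not at hc
    have := sum_le_sum (s := univ) fun w _ => hc w
    rw [(hsp z hz).1] at this
    omega
  have hne : x ≠ y := by
    rintro rfl
    obtain ⟨w, hw⟩ := hex x 0 hx (by simp)
    have := (hx0 w (by omega)).symm.trans (hy1 w (by omega))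
    omega
  have hA : A x = A y := by rw [hx, hy]
  have hf : (monomial x 1 - monomial y 1 : MvPolynomial (Word S N) K) ∈ toric K S N := by
    rw [toric, RingHom.mem_ker, map_sub, phi, phi, hA, sub_self]
  have hf0 : (monomial x 1 - monomial y 1 : MvPolynomial (Word S N) K) ≠ 0 := fun h =>
    hne (monomial_left_injective one_ne_zero (sub_eq_zero.1 h))
  obtain ⟨g, hg, hg0, hle⟩ := hG.2 _ hf hf0
  refine ⟨g, hg, ?_⟩
  by_contra hlt
  obtain ⟨v, hv, hvl⟩ := partner m (hG.1 g hg) hg0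
  have hd : ∑ w, m.degree g w ≤ 5 := by
    have := le_totalDegree ((m.degree_mem_support_iff g).2 hg0)
    rw [Finsupp.sum_fintype _ _ (fun _ => rfl)] at this
    omega
  have main : ∀ (z : Word S N →₀ ℕ) (c : ℕ), A z = F → (∀ w, z w ≠ 0 → ph w = c) →
      (∀ v, (A v = F ∧ ∀ w, v w ≠ 0 → ph w = c) → ¬ m.toSyn v < m.toSyn z) →
      ¬ m.degree g ≤ z := fun z c hz hc hm hl => by
    obtain ⟨r, rfl⟩ := exists_add_of_le hl
    obtain ⟨w, hw⟩ := hex _ _ hz hd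
    rw [Finsupp.add_apply] at hw
    have hz' : A (v + r) = F := by rw [A_add, hv, ← A_add]; exact hz
    obtain ⟨-, c', hc'⟩ := hsp _ hz'
    have e1 := hc' w (by rw [Finsupp.add_apply]; omega)
    have e2 := hc w (by rw [Finsupp.add_apply]; omega)
    refine hm (v + r) ⟨hz', fun w' hw' => by rw [hc' w' hw', ← e1, e2]⟩ ?_
    rw [map_add, map_add]
    exact add_lt_add_left hvl _
  have hs := (m.degree_mem_support_iff _).2 hf0
  rw [mem_support_iff, coeff_sub, coeff_monomial, coeff_monomial] at hs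
  by_cases h1 : x = m.degree (monomial x 1 - monomial y 1 : MvPolynomial (Word S N) K)
  · exact main x 0 hx hx0 hxm (h1 ▸ hle)
  · by_cases h2 : y = m.degree (monomial x 1 - monomial y 1 : MvPolynomial (Word S N) K)
    · exact main y 1 hy hy1 hym (h2 ▸ hle)
    · rw [if_neg h1, if_neg h2, sub_self] at hs
      exact hs rfl

def b : Fin 5 → Fin 5 → ℕ :=
  ![![0, 0, 3, 0, 6], ![0, 0, 2, 4, 0], ![0, 0, 0, 3, 0], ![0, 4, 0, 0, 0], ![8, 0, 0, 0, 0]]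

def tab : Fin 17 → Fin 7 → ℕ := ![![1, 0, 1, 0, 2, 1, 0], ![1, 0, 0, 1, 1, 2, 0], ![1, 1, 0, 0, 1, 1, 1], ![1, 2, 0, 0, 0, 0, 2], ![0, 3, 0, 0, 0, 0, 2], ![0, 0, 2, 0, 2, 1, 0], ![0, 0, 1, 1, 1, 2, 0], ![0, 0, 1, 2, 0, 2, 0], ![0, 0, 0, 3, 0, 2, 0], ![0, 0, 1, 0, 2, 2, 0], ![0, 0, 0, 2, 1, 2, 0], ![0, 0, 2, 0, 1, 2, 0], ![0, 0, 0, 2, 0, 3, 0], ![1, 0, 1, 0, 1, 1, 1], ![1, 0, 0, 1, 1, 1, 1], ![1, 1, 0, 0, 1, 0, 2], ![0, 2, 0, 0, 0, 0, 3]]

def ea : Fin 7 → Fin 5 := ![0, 0, 1, 1, 2, 3, 4]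
def eb : Fin 7 → Fin 5 := ![2, 4, 2, 3, 3, 1, 0]

def c2 (a a' i j : Fin 5) : ℕ := if a = i ∧ a' = j then 1 else 0

theorem cnt_eq (w : (Word 5 5)) (i j : Fin 5) : cnt w i j = c2 (w.1 0) (w.1 1) i j + c2 (w.1 1) (w.1 2) i j
    + c2 (w.1 2) (w.1 3) i j + c2 (w.1 3) (w.1 4) i j + c2 (w.1 4) (w.1 5) i j := by
  rw [cnt, card_filter, Fin.sum_univ_five]; rfl

theorem dec : ∀ a0 a1 : Fin 5, b a0 a1 ≠ 0 → ∀ a2 : Fin 5, b a1 a2 ≠ 0 → ∀ a3 : Fin 5,
    b a2 a3 ≠ 0 → ∀ a4 : Fin 5, b a3 a4 ≠ 0 → ∀ a5 : Fin 5, b a4 a5 ≠ 0 → ∃ k : Fin 17,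
    ∀ e : Fin 7, c2 a0 a1 (ea e) (eb e) + c2 a1 a2 (ea e) (eb e) + c2 a2 a3 (ea e) (eb e) +
      c2 a3 a4 (ea e) (eb e) + c2 a4 a5 (ea e) (eb e) = tab k e := by decide +kernel

open Classical in
noncomputable def typ (w : (Word 5 5)) : Fin 17 :=
  if h : ∃ k : Fin 17, ∀ e, cnt w (ea e) (eb e) = tab k e then h.choose else 0

def Fib (u : (Word 5 5) →₀ ℕ) : Prop := FibG b u

theorem Fib.typ {u : (Word 5 5) →₀ ℕ} (h : Fib u) {w : (Word 5 5)} (hw : u w ≠ 0) (e : Fin 7) :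
    cnt w (ea e) (eb e) = tab (typ w) e := by
  have hb : ∀ t : Fin 5, b (w.1 t.castSucc) (w.1 t.succ) ≠ 0 := fun t h0 => by
    have := h (w.1 t.castSucc) (w.1 t.succ)
    rw [A_apply, h0, sum_eq_zero_iff] at this
    have h2 := (mul_eq_zero.1 (this w (mem_univ _))).resolve_left hw
    rw [cnt, card_eq_zero, filter_eq_empty_iff] at h2
    exact h2 (mem_univ t) ⟨rfl, rfl⟩
  have hk : ∃ k : Fin 17, ∀ e, cnt w (ea e) (eb e) = tab k e := by
    simp only [cnt_eq]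
    exact dec _ _ (hb 0) _ (hb 1) _ (hb 2) _ (hb 3) _ (hb 4)
  rw [Groebner.typ, dif_pos hk]
  exact hk.choose_spec e

def yy : Fin 17 → ℕ := ![0, 0, 0, 1, 0, 1, 0, 0, 1, 0, 0, 0, 0, 0, 1, 0, 1]

def L5 (n0 n1 n2 n3 n13 n14 n15 n4 n16 n5 n6 n7 n9 n11 n8 n10 n12 : ℕ) : Prop :=
    n0 + n1 + n2 + n3 + n4 + n5 + n6 + n7 + n8 + n9 + n10 + n11 + n12 + n13 + n14 + n15 + n16 = 6 ∧
    (n3 = 0 ∧ n5 = 0 ∧ n8 = 0 ∧ n14 = 0 ∧ n16 = 0 ∨ n0 = 0 ∧ n1 = 0 ∧ n2 = 0 ∧ n4 = 0 ∧ n6 = 0 ∧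
      n7 = 0 ∧ n9 = 0 ∧ n10 = 0 ∧ n11 = 0 ∧ n12 = 0 ∧ n13 = 0 ∧ n15 = 0)

set_option synthInstance.maxSize 100000 in
instance i5 (n0 n1 n2 n3 n13 n14 n15 n4 n16 n5 n6 n7 n9 n11 n8 n10 n12 : ℕ) :
    Decidable (L5 n0 n1 n2 n3 n13 n14 n15 n4 n16 n5 n6 n7 n9 n11 n8 n10 n12) := by
  unfold L5; infer_instance

def L4 (n0 n1 n2 n3 n13 n14 n15 n4 n16 n5 n6 n7 n9 n11 : ℕ) : Prop := ∀ n8 < 3, ∀ n10 < 3,
    ∀ n12 < 3, n1 + n6 + 2 * n7 + 3 * n8 + 2 * n10 + 2 * n12 + n14 = 4 →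
    2 * n0 + n1 + n2 + 2 * n5 + n6 + 2 * n9 + n10 + n11 + n13 + n14 + n15 = 3 →
    n0 + 2 * n1 + n2 + n5 + 2 * n6 + 2 * n7 + 2 * n8 + 2 * n9 + 2 * n10 + 2 * n11 + 3 * n12 +
      n13 + n14 = 4 → L5 n0 n1 n2 n3 n13 n14 n15 n4 n16 n5 n6 n7 n9 n11 n8 n10 n12

set_option synthInstance.maxSize 100000 in
instance i4 (n0 n1 n2 n3 n13 n14 n15 n4 n16 n5 n6 n7 n9 n11 : ℕ) :
    Decidable (L4 n0 n1 n2 n3 n13 n14 n15 n4 n16 n5 n6 n7 n9 n11) := by
  unfold L4; infer_instance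

def L3 (n0 n1 n2 n3 n13 n14 n15 n4 n16 : ℕ) : Prop := ∀ n5 < 3, ∀ n6 < 3, ∀ n7 < 3,
    ∀ n9 < 3, ∀ n11 < 3, n0 + 2 * n5 + n6 + n7 + n9 + 2 * n11 + n13 = 2 →
    L4 n0 n1 n2 n3 n13 n14 n15 n4 n16 n5 n6 n7 n9 n11

set_option synthInstance.maxSize 100000 in
instance i3 (n0 n1 n2 n3 n13 n14 n15 n4 n16 : ℕ) :
    Decidable (L3 n0 n1 n2 n3 n13 n14 n15 n4 n16) := by
  unfold L3; infer_instance

def L2 (n0 n1 n2 n3 n13 n14 : ℕ) : Prop := ∀ n15 < 4,
    n0 + n1 + n2 + n3 + n13 + n14 + n15 = 3 → ∀ n4 < 4, ∀ n16 < 4,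
    n2 + 2 * n3 + 3 * n4 + n15 + 2 * n16 = 6 →
    n2 + 2 * n3 + 2 * n4 + n13 + n14 + 2 * n15 + 3 * n16 = 8 → L3 n0 n1 n2 n3 n13 n14 n15 n4 n16

set_option synthInstance.maxSize 100000 in
instance i2 (n0 n1 n2 n3 n13 n14 : ℕ) : Decidable (L2 n0 n1 n2 n3 n13 n14) := by
  unfold L2; infer_instance

set_option synthInstance.maxSize 100000 in
set_option maxRecDepth 100000 in
theorem brute : ∀ n0 < 4, ∀ n1 < 4 - n0, ∀ n2 < 4 - n0 - n1, ∀ n3 < 4 - n0 - n1 - n2,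
    ∀ n13 < 4 - n0 - n1 - n2 - n3, ∀ n14 < 4 - n0 - n1 - n2 - n3 - n13,
    L2 n0 n1 n2 n3 n13 n14 := by decide +kernel

theorem arith (n : Fin 17 → ℕ) (h : ∀ e, ∑ k, n k * tab k e = b (ea e) (eb e)) :
    ∑ k, n k * 1 = 6 ∧ (∑ k, n k * yy k = 0 ∨ ∑ k, n k * (1 - yy k) = 0) := by
  have h0 := h 0; have h1 := h 1; have h2 := h 2; have h3 := h 3; have h4 := h 4
  have h5 := h 5; have h6 := h 6
  simp [Fin.sum_univ_succ, tab, b, ea, eb, yy] at h0 h1 h2 h3 h4 h5 h6 ⊢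
  clear h
  have := brute (n 0) (by clear * - h0; omega) (n 1) (by clear * - h0; omega) (n 2)
    (by clear * - h0; omega) (n 3) (by clear * - h0; omega) (n 13) (by clear * - h0; omega)
    (n 14) (by clear * - h0; omega) (n 15) (by clear * - h0; omega) (by linarith only [h0])
    (n 4) (by clear * - h1; omega) (n 16) (by clear * - h1; omega) (by linarith only [h1])
    (by linarith only [h6]) (n 5) (by clear * - h2; omega) (n 6) (by clear * - h2; omega) (n 7)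
    (by clear * - h2; omega) (n 9) (by clear * - h2; omega) (n 11) (by clear * - h2; omega)
    (by linarith only [h2]) (n 8) (by clear * - h3; omega) (n 10) (by clear * - h3; omega) (n 12)
    (by clear * - h3; omega) (by linarith only [h3]) (by linarith only [h4]) (by linarith only [h5])
  exact ⟨by linarith only [this.1], this.2⟩

theorem Fib.split {u : (Word 5 5) →₀ ℕ} (h : Fib u) : ∑ w, u w = 6 ∧
    ∃ c, ∀ w, u w ≠ 0 → yy (Groebner.typ w) = c := by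
  classical
  have key : ∀ f : Fin 17 → ℕ, ∑ k, (∑ w with Groebner.typ w = k, u w) * f k =
      ∑ w, u w * f (Groebner.typ w) := fun f => by
    rw [← sum_fiberwise univ Groebner.typ fun w => u w * f (Groebner.typ w)]
    refine sum_congr rfl fun k _ => ?_
    rw [sum_mul]
    exact sum_congr rfl fun w hw => by rw [(mem_filter.1 hw).2]
  obtain ⟨a1, a2⟩ := arith (fun k => ∑ w with Groebner.typ w = k, u w) fun e => by
    rw [key fun k => tab k e, ← h, A_apply]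
    refine sum_congr rfl fun w _ => ?_
    by_cases hw : u w = 0
    · rw [hw, zero_mul, zero_mul]
    · rw [h.typ hw]
  rw [key fun _ => 1] at a1
  rw [key yy, key fun k => 1 - yy k, sum_eq_zero_iff, sum_eq_zero_iff] at a2
  refine ⟨by simpa only [mul_one] using a1, ?_⟩
  rcases a2 with a2 | a2
  · exact ⟨0, fun w hw => (mul_eq_zero.1 (a2 w (mem_univ _))).resolve_left hw⟩
  · refine ⟨1, fun w hw => ?_⟩
    have h1 := (mul_eq_zero.1 (a2 w (mem_univ _))).resolve_left hw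
    have h2 : ∀ k, yy k ≤ 1 := by decide
    have := h2 (Groebner.typ w)
    omega

def wd (v : Fin 6 → Fin 5) (h : ∀ t : Fin 5, v t.castSucc ≠ v t.succ) : (Word 5 5) := ⟨v, h⟩

theorem tab_inj : ∀ k l : Fin 17, (∀ e, tab k e = tab l e) → k = l := by decide +kernel

theorem nec (w0 : (Word 5 5)) (r : (Word 5 5) →₀ ℕ) (k : Fin 17) (hF : Fib (Finsupp.single w0 1 + r))
    (hk : ∀ e, cnt w0 (ea e) (eb e) = tab k e) : ∃ u, Fib u ∧ ∀ w, u w ≠ 0 → yy (typ w) = yy k := by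
  obtain ⟨-, c, hc⟩ := hF.split
  have h2 : typ w0 = k := tab_inj _ _ fun e => (hF.typ (sne w0 r) e).symm.trans (hk e)
  exact ⟨_, hF, fun w hw => (hc w hw).trans ((hc w0 (sne w0 r)).symm.trans (congrArg yy h2))⟩

def w1 : (Word 5 5) := wd ![0, 4, 0, 4, 0, 4] (by decide)
def w2 : (Word 5 5) := wd ![1, 3, 1, 3, 1, 2] (by decide)
def w3 : (Word 5 5) := wd ![4, 0, 4, 0, 2, 3] (by decide)
def w4 : (Word 5 5) := wd ![4, 0, 4, 0, 4, 0] (by decide)
def w5 : (Word 5 5) := wd ![1, 2, 3, 1, 2, 3] (by decide)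
def w6 : (Word 5 5) := wd ![1, 3, 1, 3, 1, 3] (by decide)
def w7 : (Word 5 5) := wd ![4, 0, 2, 3, 1, 3] (by decide)
def w8 : (Word 5 5) := wd ![0, 4, 0, 4, 0, 2] (by decide)

theorem d0 : D3 b w1 w2 w3 := by unfold D3; decide +kernel

theorem d1 : D5 b w4 w5 w6 w7 w8 := by unfold D5; decide +kernel

theorem k0 : ∀ e, cnt w1 (ea e) (eb e) = tab 4 e := by decide +kernel
theorem k1 : ∀ e, cnt w4 (ea e) (eb e) = tab 16 e := by decide +kernel

theorem ne0 : ∃ u, Fib u ∧ ∀ w, u w ≠ 0 → yy (typ w) = yy 4 := by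
  obtain ⟨r, h⟩ := fib3 d0
  exact nec w1 r 4 h k0

theorem ne1 : ∃ u, Fib u ∧ ∀ w, u w ≠ 0 → yy (typ w) = yy 16 := by
  obtain ⟨r, h⟩ := fib5 d1
  exact nec w4 r 16 h k1

/-- For `S = 5`, `T = 6`, every Groebner basis of the toric ideal, for every term order,
contains an element of degree at least `6 = S + 1`. -/
theorem result (K : Type) [Field K] (m : MonomialOrder (Word 5 5))
    (G : Set (MvPolynomial (Word 5 5) K)) (hG : IsGroebner m (toric K 5 5) G) :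
    ∃ g ∈ G, 6 ≤ g.totalDegree := by
  have hF : ∀ u : (Word 5 5) →₀ ℕ, A u = Finsupp.equivFunOnFinite.symm (fun p => b p.1 p.2) ↔ Fib u :=
    fun u => hFg u b
  refine gen m G hG _ (fun w => yy (typ w)) (fun u hu => ((hF u).1 hu).split) ?_ ?_
  · obtain ⟨u, h1, h2⟩ := ne0
    exact ⟨u, (hF u).2 h1, h2⟩
  · obtain ⟨u, h1, h2⟩ := ne1
    exact ⟨u, (hF u).2 h1, h2⟩

end Pool.Agent.Results.MP_c5e1a2_co.Groebner
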